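import Pool.Agent.H95.ExpC

set_option autoImplicit false

open Pool.Agent.H95.ExpC

theorem Pool.Agent.Results.MP_7112d2_mp.Exists.result :
    ∃ (N : Mat 3 → Mat 4) (M : Mat 3 → Mat 2), IsChan N ∧ IsChan M ∧
      OpConvex (fun x => (x - 1) ^ 2) ∧ OpConvex (fun x => 2 / (1 + x)) ∧
      IsGLB (divSet (fun x => (x - 1) ^ 2) N M) 0 ∧
      (6⁻¹ : ℝ) ∈ lowerBounds (nrmSet (fun x => 2 / (1 + x)) N M) :=
  Pool.Agent.H95.ExpC.main
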